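import Pool.Agent.Helper72.EP.Spec1

/-!
MP_45fa85_co, module CLO1: rooted sets in the blow-up from the haven.
-/

namespace ErdPos

open Finset

lemma clo1_conn {V : Type} [DecidableEq V] {G : SimpleGraph V} {W T : Finset V}
    {A : Finset (V × Bool)} (hA : Conn (BU G) A) (hW : ∀ x ∈ A, x.1 ∈ W \ T) :
    Conn (BT G W T) A := by
  refine ⟨hA.1, fun B hB hne hBA => ?_⟩
  obtain ⟨a, ha, b, hb, hab⟩ := hA.2 B hB hne hBA
  have haW := mem_sdiff.1 (hW a (hB ha))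
  have hbW := mem_sdiff.1 (hW b (mem_sdiff.1 hb).1)
  refine ⟨a, ha, b, hb, haW.1, hbW.1, ?_⟩
  rcases hab with h | h
  · exact Or.inl ⟨h, fun h' => haW.2 h'.1⟩
  · exact Or.inr h

lemma clo1_adj {V : Type} [DecidableEq V] {G : SimpleGraph V} {W T : Finset V}
    {A B : Finset (V × Bool)} (hAB : AdjS (BU G) A B) (hA : ∀ x ∈ A, x.1 ∈ W \ T)
    (hB : ∀ x ∈ B, x.1 ∈ W \ T) : AdjS (BT G W T) A B := by
  obtain ⟨a, ha, b, hb, hab⟩ := hAB
  have haW := mem_sdiff.1 (hA a ha)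
  have hbW := mem_sdiff.1 (hB b hb)
  refine ⟨a, ha, b, hb, haW.1, hbW.1, ?_⟩
  rcases hab with h | h
  · exact Or.inl ⟨h, fun h' => haW.2 h'.1⟩
  · exact Or.inr h

/-- the separation hypothesis of RCM -/
lemma clo1_sep {V : Type} [Fintype V] [DecidableEq V] {G : SimpleGraph V} {F : Finset V → Prop}
    {W T : Finset V} (hTW : T ⊆ W) (hInd : Indep G F W T) (hW : Hav G F W T.card)
    (A : Finset (V × Bool))
    (hAb : ∀ S : Finset V, S.card < T.card → ∃ x ∈ A, x.1 ∈ bt G F (W \ T) S)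
    (S U : Finset (V × Bool)) (hS : S.card < 2 * T.card) (hAS : Disjoint A S)
    (hZU : (T ×ˢ (univ : Finset Bool)) \ S ⊆ U) (hN : Nb (BT G W T) univ U ⊆ S) :
    ¬ Disjoint U A := by
  classical
  intro hdis
  -- vertices with both copies in `S`
  set S1 : Finset V := univ.filter (fun v => (v, false) ∈ S ∧ (v, true) ∈ S) with hS1
  have hS1c : S1.card < T.card := by
    have h1 : (S1 ×ˢ (univ : Finset Bool)) ⊆ S := by
      rintro ⟨v, b⟩ hv
      have hv1 := (mem_filter.1 (mem_product.1 hv).1).2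
      cases b
      · exact hv1.1
      · exact hv1.2
    have h2 := card_le_card h1
    rw [card_product, card_univ, Fintype.card_bool] at h2
    omega
  have hcopy : ∀ v, v ∉ S1 → ∃ b : Bool, (v, b) ∉ S := by
    intro v hv
    by_contra hn
    push Not at hn
    exact hv (mem_filter.2 ⟨mem_univ v, hn false, hn true⟩)
  have hb := hW.isBt (Z := S1) hS1c.le
  set β := bt G F W S1 with hβ
  have hβW : ∀ v ∈ β, v ∈ W ∧ v ∉ S1 := fun v hv => mem_sdiff.1 (hb.1 hv)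
  -- `β` meets `T`
  have hmeet : ∃ t ∈ β, t ∈ T := by
    by_contra hn
    push Not at hn
    have h1 := hInd β hb.big (Finset.disjoint_left.2 hn)
    have h2 := card_le_card hb.Nb_subset
    omega
  have hTU : ∀ t ∈ β, t ∈ T → ∃ b : Bool, (t, b) ∈ U := by
    intro t ht htT
    obtain ⟨b, hb'⟩ := hcopy t (hβW t ht).2
    exact ⟨b, hZU (mem_sdiff.2 ⟨mem_product.2 ⟨htT, mem_univ b⟩, hb'⟩)⟩
  -- a point of `A` over `β`
  obtain ⟨x, hxA, hxb⟩ := hAb S1 hS1c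
  have hex : ∃ C, IsBt G F (W \ T) S1 C := by
    by_contra hn
    unfold bt at hxb
    rw [dif_neg hn] at hxb
    exact absurd hxb (notMem_empty _)
  obtain ⟨C, hC⟩ := hex
  rw [hC.eq_bt] at hxb
  have hCβ : C ⊆ β := by
    refine hb.2.2.2 C ?_ hC.2.1 hC.2.2.1
    intro v hv
    have h := mem_sdiff.1 (hC.1 hv)
    exact mem_sdiff.2 ⟨(mem_sdiff.1 h.1).1, h.2⟩
  have hxβ : x.1 ∈ β := hCβ hxb
  set U1 := β.filter (fun v => ∃ b : Bool, (v, b) ∈ U) with hU1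
  have hU1β : U1 ⊆ β := filter_subset _ _
  have hne : U1.Nonempty := by
    obtain ⟨t, ht, htT⟩ := hmeet
    exact ⟨t, mem_filter.2 ⟨ht, hTU t ht htT⟩⟩
  have hxU : x ∉ U := fun h => (Finset.disjoint_left.1 hdis) h hxA
  have hx1 : x.1 ∉ U1 := by
    intro h
    obtain ⟨b, hbU⟩ := (mem_filter.1 h).2
    have hne' : x.2 ≠ b := by
      intro he
      apply hxU
      have : x = (x.1, b) := by rw [← he]
      rw [this]
      exact hbU
    have hxN : x ∈ Nb (BT G W T) univ U := by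
      refine mem_Nb.2 ⟨mem_univ x, hxU, (x.1, b), hbU, (hβW _ hxβ).1, (hβW _ hxβ).1, ?_⟩
      exact Or.inr ⟨rfl, hne'⟩
    exact (Finset.disjoint_left.1 hAS) hxA (hN hxN)
  have hU1ne : U1 ≠ β := fun h => hx1 (h ▸ hxβ)
  obtain ⟨v, hv, w, hw, hvw⟩ := hb.2.1.2 U1 hU1β hne hU1ne
  obtain ⟨hvβ, b, hvb⟩ := mem_filter.1 hv
  obtain ⟨hwβ, hwU1⟩ := mem_sdiff.1 hw
  have hwT : w ∉ T := fun h => hwU1 (mem_filter.2 ⟨hwβ, hTU w hwβ h⟩)
  obtain ⟨c, hc⟩ := hcopy w (hβW w hwβ).2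
  have hwU : (w, c) ∉ U := fun h => hwU1 (mem_filter.2 ⟨hwβ, c, h⟩)
  have hwN : (w, c) ∈ Nb (BT G W T) univ U := by
    refine mem_Nb.2 ⟨mem_univ _, hwU, (v, b), hvb, (hβW _ hwβ).1, (hβW _ hvβ).1, ?_⟩
    exact Or.inl ⟨hvw.symm, fun h => hwT h.1⟩
  exact hc (hN hwN)

/-- rooted sets from the haven -/
theorem st_CLO1 (h1 : ST_XBAR) (h2 : ST_RCM) : ST_CLO1 := by
  intro n
  obtain ⟨θ, hθ⟩ := h1 n ((2 * n + 1) ^ 2)
  refine ⟨θ, ?_⟩
  intro V _ _ G F _ W T hTW hTn hInd hWn hWθ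
  obtain ⟨A, hA1, hA2, hA3⟩ := hθ V G F (W \ T) hWθ
  have hZc : (T ×ˢ (univ : Finset Bool)).card = 2 * n := by
    rw [card_product, card_univ, Fintype.card_bool, hTn]
    ring
  obtain ⟨R, hR1, hR2⟩ := h2 (V × Bool) (BT G W T) (T ×ˢ (univ : Finset Bool))
    ((2 * n + 1) ^ 2) A (by rw [hZc]) (by
      intro i
      refine ⟨clo1_conn (hA1 i).1 (hA1 i).2, ?_⟩
      rw [Finset.disjoint_left]
      intro x hx hxT
      exact (mem_sdiff.1 ((hA1 i).2 x hx)).2 (mem_product.1 hxT).1) (by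
      intro i j hij
      exact ⟨(hA2 i j hij).1, clo1_adj (hA2 i j hij).2 (hA1 i).2 (hA1 j).2⟩) (by
      intro i S U hS hAS hZU hN
      rw [hZc] at hS
      exact clo1_sep hTW hInd (by rw [hTn]; exact hWn) (A i) (by
        intro S' hS'
        rw [hTn] at hS'
        exact hA3 i S' hS') S U (by rw [hTn]; exact hS) hAS hZU hN)
  refine ⟨R, ?_, ?_⟩
  · intro z hz
    exact hR1 z (mem_product.2 ⟨hz, mem_univ _⟩)
  · intro z z' hz hz' hne
    exact hR2 z (mem_product.2 ⟨hz, mem_univ _⟩) z' (mem_product.2 ⟨hz', mem_univ _⟩) hne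

end ErdPos
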