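import Pool.Agent.Helper72.EP.Spec1

/-!
MP_45fa85_co, module IND: absorbing closure and the independence lemma.
-/

namespace ErdPos

open Finset

section
variable {V : Type} [Fintype V] [DecidableEq V] {G : SimpleGraph V} {F : Finset V → Prop}
  {W : Finset V} {q : ℕ}

open Classical in
/-- closure of `D` and the neighbourhood of `z` -/
noncomputable def indF (G : SimpleGraph V) (F : Finset V → Prop) (W : Finset V) (q : ℕ)
    (D : Finset V) (z : V) : Finset V := cl G F W q (D ∪ W.filter (fun v => G.Adj z v))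

open Classical in
/-- the absorbing closure -/
noncomputable def indP (G : SimpleGraph V) (F : Finset V → Prop) (W : Finset V) (q : ℕ)
    (D : Finset V) : Finset V :=
  cl G F W q (D ∪ ((Nb G W (W \ D)).filter
    (fun z => rk G F W q (indF G F W q D z) ≤ rk G F W q D + 4)).biUnion (indF G F W q D))

lemma ind_sub_cl {X : Finset V} (hX : X ⊆ W) : X ⊆ cl G F W q X := by
  intro v hv
  unfold cl
  rw [mem_filter]
  refine ⟨hX hv, ?_⟩
  rw [insert_eq_of_mem hv]

lemma ind_cl_sub {X : Finset V} : cl G F W q X ⊆ W := by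
  unfold cl
  exact filter_subset _ _

lemma ind_plus (h1 : ST_RK1) (h2 : ST_RK2) (hW : Hav G F W (2 * q)) {D : Finset V} (hD : D ⊆ W)
    (hc : cl G F W q D = D) (hq : 5 * rk G F W q D < q) :
    D ⊆ indP G F W q D ∧ indP G F W q D ⊆ W ∧
      cl G F W q (indP G F W q D) = indP G F W q D ∧
      rk G F W q (indP G F W q D) ≤ 5 * rk G F W q D ∧
      ∀ z ∈ Nb G W (W \ D), rk G F W q (indF G F W q D z) ≤ rk G F W q D + 4 →
        indF G F W q D z ⊆ indP G F W q D := by
  classical
  obtain ⟨_, _, rmono, _, rsub, _, _⟩ := h1 V G F W q hW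
  have hDF : ∀ z, D ⊆ indF G F W q D z := by
    intro z
    refine subset_trans subset_union_left (ind_sub_cl (union_subset hD (filter_subset _ _)))
  have hFW : ∀ z, indF G F W q D z ⊆ W := fun z => ind_cl_sub
  set S := (Nb G W (W \ D)).filter
    (fun z => rk G F W q (indF G F W q D z) ≤ rk G F W q D + 4) with hS
  have hcard : (Nb G W (W \ D)).card = rk G F W q D := by
    have := (h2 V G F W q hW D hD (by omega)).2.2.2.2.1
    rwa [hc] at this
  have hind : ∀ S' : Finset V, S' ⊆ S →
      rk G F W q (D ∪ S'.biUnion (indF G F W q D)) ≤ rk G F W q D + 4 * S'.card := by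
    intro S'
    induction S' using Finset.induction_on with
    | empty => intro _; simp
    | insert z S' hz ih =>
      intro hsub
      have ih' := ih ((subset_insert z S').trans hsub)
      have hzS : z ∈ S := hsub (mem_insert_self z S')
      rw [hS, mem_filter] at hzS
      have e : D ∪ (insert z S').biUnion (indF G F W q D)
          = (D ∪ S'.biUnion (indF G F W q D)) ∪ indF G F W q D z := by
        rw [biUnion_insert]
        ext v
        simp only [mem_union]
        tauto
      have s := rsub (D ∪ S'.biUnion (indF G F W q D)) (indF G F W q D z)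
      have m := rmono D ((D ∪ S'.biUnion (indF G F W q D)) ∩ indF G F W q D z)
        (subset_inter subset_union_left (hDF z))
      rw [e, card_insert_of_notMem hz]
      have := hzS.2
      omega
  have hS1 : S.card ≤ rk G F W q D := by
    rw [← hcard]
    exact card_le_card (filter_subset _ _)
  have hr := hind S subset_rfl
  have hYW : D ∪ S.biUnion (indF G F W q D) ⊆ W := by
    refine union_subset hD ?_
    intro v hv
    rw [mem_biUnion] at hv
    obtain ⟨z, _, hz⟩ := hv
    exact hFW z hz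
  have hYq : rk G F W q (D ∪ S.biUnion (indF G F W q D)) < q := by omega
  obtain ⟨c1, c2, c3, _⟩ := h2 V G F W q hW _ hYW hYq
  have hP : indP G F W q D = cl G F W q (D ∪ S.biUnion (indF G F W q D)) := rfl
  rw [hP]
  refine ⟨subset_union_left.trans c1, ind_cl_sub, c3, ?_, ?_⟩
  · rw [c2]
    omega
  · intro z hz hrz
    have : z ∈ S := by
      rw [hS, mem_filter]
      exact ⟨hz, hrz⟩
    exact (subset_trans (subset_biUnion_of_mem (indF G F W q D) this) subset_union_right).trans c1

/-- one step of the independence lemma -/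
lemma ind_step (h1 : ST_RK1) (h2 : ST_RK2) (hW : Hav G F W (2 * q)) {D D' P E : Finset V}
    (hD : D ⊆ W) (hc : cl G F W q D = D) (hD' : D' = indP G F W q D)
    (hq : 5 * rk G F W q D < q) (hPW : P ⊆ W) (hcP : cl G F W q P = P)
    (hPq : rk G F W q P < q) (hDP : D ⊆ P) (hE : E ⊆ Nb G W (W \ P)) (hED : Disjoint E D)
    (hle : rk G F W q (D ∪ E) ≤ rk G F W q D + 4)
    (heq : rk G F W q (D' ∪ E) + rk G F W q D = rk G F W q (D ∪ E) + rk G F W q D') :
    E.card + rk G F W q D ≤ rk G F W q (D ∪ E) := by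
  classical
  obtain ⟨_, _, rmono, _, rsub, _, _⟩ := h1 V G F W q hW
  obtain ⟨p1, p2, p3, p4, p5⟩ := ind_plus h1 h2 hW hD hc hq
  rw [← hD'] at p1 p2 p3 p4 p5
  have hEP : E ⊆ P := by
    intro e he
    have h := mem_Nb.1 (hE he)
    by_contra hn
    exact h.2.1 (mem_sdiff.2 ⟨h.1, hn⟩)
  have hDE : D ∪ E ⊆ P := union_subset hDP hEP
  have hDEW : D ∪ E ⊆ W := hDE.trans hPW
  have hDEq : rk G F W q (D ∪ E) < q := lt_of_le_of_lt (rmono _ _ hDE) hPq
  have hDq : rk G F W q D < q := by omega
  obtain ⟨c1, c2, c3, _, c5, _, _, _, c9, _, _⟩ := h2 V G F W q hW (D ∪ E) hDEW hDEq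
  obtain ⟨_, _, _, _, d5, _, _, _, _, d10, _⟩ := h2 V G F W q hW D hD hDq
  set Pi := cl G F W q (D ∪ E) with hPi
  have hPiW : Pi ⊆ W := ind_cl_sub
  have hPiP : Pi ⊆ P := by
    have := c9 P hPW hPq (by rw [hcP]; exact hDE)
    rwa [hcP] at this
  have hZZ : Nb G W (W \ D) ⊆ Nb G W (W \ Pi) := by
    intro z hz
    obtain ⟨hzW, hzD, y, hy, hzy⟩ := mem_Nb.1 hz
    have hzD' : z ∈ D := by
      by_contra hn
      exact hzD (mem_sdiff.2 ⟨hzW, hn⟩)
    by_contra hn
    have hnb : W.filter (fun v => G.Adj z v) ⊆ Pi := by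
      intro v hv
      rw [mem_filter] at hv
      by_contra hvn
      exact hn (mem_Nb.2 ⟨hzW, fun h => (mem_sdiff.1 h).2 (c1 (mem_union_left _ hzD')),
        v, mem_sdiff.2 ⟨hv.1, hvn⟩, hv.2⟩)
    have hsub : D ∪ W.filter (fun v => G.Adj z v) ⊆ Pi :=
      union_subset (subset_union_left.trans c1) hnb
    have hsubW : D ∪ W.filter (fun v => G.Adj z v) ⊆ W := hsub.trans hPiW
    have hlt : rk G F W q (D ∪ W.filter (fun v => G.Adj z v)) < q :=
      lt_of_le_of_lt (rmono _ _ (hsub.trans hPiP)) hPq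
    obtain ⟨f1, f2, _, _, _, _, _, _, f9, _, _⟩ := h2 V G F W q hW _ hsubW hlt
    have hFsub : indF G F W q D z ⊆ Pi := by
      exact f9 (D ∪ E) hDEW hDEq hsub
    have hFr : rk G F W q (indF G F W q D z) ≤ rk G F W q D + 4 := by
      have := rmono _ _ hFsub
      rw [c2] at this
      omega
    have hFD' : indF G F W q D z ⊆ D' := p5 z hz hFr
    have s := rsub D' (indF G F W q D z ∪ E)
    have e1 : D' ∪ (indF G F W q D z ∪ E) = D' ∪ E := by
      rw [← union_assoc, union_eq_left.2 hFD']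
    have m1 := rmono (indF G F W q D z) (D' ∩ (indF G F W q D z ∪ E))
      (subset_inter hFD' subset_union_left)
    have m2 := rmono (indF G F W q D z ∪ E) Pi
      (union_subset hFsub (subset_union_right.trans c1))
    rw [c2] at m2
    rw [e1] at s
    have hle2 : rk G F W q (indF G F W q D z) ≤ rk G F W q D := by omega
    have hrF : rk G F W q (indF G F W q D z)
        = rk G F W q (D ∪ W.filter (fun v => G.Adj z v)) := f2
    have m3 := rmono D (D ∪ W.filter (fun v => G.Adj z v)) subset_union_left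
    have h5 := (d10 _ hsubW subset_union_left (by omega)).1
    rw [hc] at h5
    have hyD : y ∈ D := h5 (mem_union_right _ (mem_filter.2 ⟨(mem_sdiff.1 hy).1, hzy⟩))
    exact (mem_sdiff.1 hy).2 hyD
  have hEZ : E ⊆ Nb G W (W \ Pi) := by
    intro e he
    obtain ⟨heW, _, y, hy, hey⟩ := mem_Nb.1 (hE he)
    refine mem_Nb.2 ⟨heW, fun h => (mem_sdiff.1 h).2 (c1 (mem_union_right _ he)), y, ?_, hey⟩
    rw [mem_sdiff] at hy ⊢
    exact ⟨hy.1, fun h => hy.2 (hPiP h)⟩
  have hZD : Nb G W (W \ D) ⊆ D := by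
    intro z hz
    obtain ⟨hzW, hzD, _⟩ := mem_Nb.1 hz
    by_contra hn
    exact hzD (mem_sdiff.2 ⟨hzW, hn⟩)
  have hdis : Disjoint E (Nb G W (W \ D)) := disjoint_of_subset_right hZD hED
  have hcard := card_le_card (union_subset hEZ hZZ)
  rw [card_union_of_disjoint hdis] at hcard
  rw [hc] at d5
  rw [d5, c5] at hcard
  exact hcard

end

/-- absorbing closure and the independence lemma -/
theorem st_IND (h1 : ST_RK1) (h2 : ST_RK2) : ST_IND := by
  classical
  intro V _ _ G F W q hW T hT hrT hq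
  obtain ⟨_, rcard, rmono, _, rsub, _, _⟩ := h1 V G F W q hW
  obtain ⟨t1, t2, t3, _⟩ := h2 V G F W q hW T hT (by omega)
  set D0 := cl G F W q T with hD0
  set D1 := indP G F W q D0 with hD1
  set D2 := indP G F W q D1 with hD2
  set D3 := indP G F W q D2 with hD3
  set D4 := indP G F W q D3 with hD4
  have w0 : D0 ⊆ W := ind_cl_sub
  have r0 : rk G F W q D0 = T.card := by rw [t2, hrT]
  obtain ⟨a1, a2, a3, a4, a5⟩ := ind_plus h1 h2 hW w0 t3 (by omega)
  rw [← hD1] at a1 a2 a3 a4 a5
  obtain ⟨b1, b2, b3, b4, b5⟩ := ind_plus h1 h2 hW a2 a3 (by omega)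
  rw [← hD2] at b1 b2 b3 b4 b5
  obtain ⟨c1, c2, c3, c4, c5⟩ := ind_plus h1 h2 hW b2 b3 (by omega)
  rw [← hD3] at c1 c2 c3 c4 c5
  obtain ⟨d1, d2, d3, d4, d5⟩ := ind_plus h1 h2 hW c2 c3 (by omega)
  rw [← hD4] at d1 d2 d3 d4 d5
  refine ⟨D4, t1.trans (a1.trans (b1.trans (c1.trans d1))), d2, d3, by omega, ?_⟩
  intro X hX hXq E hE hED hE4
  rcases E.eq_empty_or_nonempty with rfl | ⟨e, he⟩
  · simp [hrT]
  have hXW : D4 ∪ X ⊆ W := union_subset d2 hX
  obtain ⟨p1, p2, p3, _⟩ := h2 V G F W q hW (D4 ∪ X) hXW hXq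
  set P := cl G F W q (D4 ∪ X) with hP
  have hPW : P ⊆ W := ind_cl_sub
  have hPq : rk G F W q P < q := by rw [p2]; exact hXq
  have hD4P : D4 ⊆ P := subset_union_left.trans p1
  have hD3P : D3 ⊆ P := d1.trans hD4P
  have hD2P : D2 ⊆ P := c1.trans hD3P
  have hD1P : D1 ⊆ P := b1.trans hD2P
  have hD0P : D0 ⊆ P := a1.trans hD1P
  have j3 : Disjoint E D3 := disjoint_of_subset_right d1 hED
  have j2 : Disjoint E D2 := disjoint_of_subset_right c1 j3
  have j1 : Disjoint E D1 := disjoint_of_subset_right b1 j2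
  have j0 : Disjoint E D0 := disjoint_of_subset_right a1 j1
  -- monotonicity of the increments
  have mono : ∀ {A B : Finset V}, A ⊆ B → rk G F W q (B ∪ E) + rk G F W q A
      ≤ rk G F W q (A ∪ E) + rk G F W q B := by
    intro A B hAB
    have s := rsub B (A ∪ E)
    have e1 : B ∪ (A ∪ E) = B ∪ E := by
      rw [← union_assoc, union_eq_left.2 hAB]
    have m1 := rmono A (B ∩ (A ∪ E)) (subset_inter hAB subset_union_left)
    rw [e1] at s
    omega
  have m0 := mono a1
  have m1 := mono b1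
  have m2 := mono c1
  have m3 := mono d1
  have u : rk G F W q (D0 ∪ E) ≤ rk G F W q D0 + E.card := by
    have s := rsub D0 E
    have := rcard E
    omega
  have l : rk G F W q D4 < rk G F W q (D4 ∪ E) := by
    have heW : e ∈ W := (mem_Nb.1 (hE he)).1
    have heD : e ∉ D4 := Finset.disjoint_left.1 hED he
    have hne : rk G F W q (insert e D4) ≠ rk G F W q D4 := by
      intro h
      apply heD
      rw [← d3]
      unfold cl
      exact mem_filter.2 ⟨heW, h⟩
    have h3 := rmono D4 (insert e D4) (subset_insert _ _)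
    have h4 := rmono (insert e D4) (D4 ∪ E)
      (insert_subset (mem_union_right _ he) subset_union_left)
    omega
  have n0 := rmono D0 (D0 ∪ E) subset_union_left
  have n1 := rmono D1 (D1 ∪ E) subset_union_left
  have n2 := rmono D2 (D2 ∪ E) subset_union_left
  have n3 := rmono D3 (D3 ∪ E) subset_union_left
  have hfin : rk G F W q (T ∪ E) = rk G F W q (D0 ∪ E) := by
    have := (h2 V G F W q hW T hT (by omega)).2.2.2.2.2.2.2.2.2.2 E
    rw [← hD0] at this
    exact this.symm
  rw [hfin]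
  by_cases k0 : rk G F W q (D1 ∪ E) + rk G F W q D0 = rk G F W q (D0 ∪ E) + rk G F W q D1
  · have := ind_step h1 h2 hW w0 t3 hD1 (by omega) hPW p3 hPq hD0P hE j0 (by omega) k0
    omega
  by_cases k1 : rk G F W q (D2 ∪ E) + rk G F W q D1 = rk G F W q (D1 ∪ E) + rk G F W q D2
  · have := ind_step h1 h2 hW a2 a3 hD2 (by omega) hPW p3 hPq hD1P hE j1 (by omega) k1
    omega
  by_cases k2 : rk G F W q (D3 ∪ E) + rk G F W q D2 = rk G F W q (D2 ∪ E) + rk G F W q D3
  · have := ind_step h1 h2 hW b2 b3 hD3 (by omega) hPW p3 hPq hD2P hE j2 (by omega) k2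
    omega
  by_cases k3 : rk G F W q (D4 ∪ E) + rk G F W q D3 = rk G F W q (D3 ∪ E) + rk G F W q D4
  · have := ind_step h1 h2 hW c2 c3 hD4 (by omega) hPW p3 hPq hD3P hE j3 (by omega) k3
    omega
  omega

end ErdPos
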