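import Pool.Agent.Helper72.EP.Spec1

/-!
MP_45fa85_co, module RK1: the rank function.
-/

namespace ErdPos

open Finset

/-- the rank function: bounds, monotonicity, submodularity -/
theorem st_RK1 : ST_RK1 := by
  classical
  intro V _ _ G F W q hW
  have le_q : ∀ X, rk G F W q X ≤ q := fun X => Nat.sInf_le (Or.inr rfl)
  have le_N : ∀ X C, Big G F W C → Disjoint C X → rk G F W q X ≤ (Nb G W C).card :=
    fun X C hC hd => Nat.sInf_le (Or.inl ⟨C, hC, hd, rfl⟩)
  have ex : ∀ X, rk G F W q X < q → ∃ C, Big G F W C ∧ Disjoint C X ∧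
      (Nb G W C).card = rk G F W q X := by
    intro X hX
    have hmem : rk G F W q X ∈ ({n | ∃ C, Big G F W C ∧ Disjoint C X ∧ (Nb G W C).card = n} ∪
        {q} : Set ℕ) := Nat.sInf_mem ⟨q, Or.inr rfl⟩
    rcases hmem with h | h
    · exact h
    · have h' : rk G F W q X = q := h
      omega
  have mono : ∀ X Y, X ⊆ Y → rk G F W q X ≤ rk G F W q Y := by
    intro X Y hXY
    by_cases hY : rk G F W q Y < q
    · obtain ⟨C, hC, hd, he⟩ := ex Y hY
      rw [← he]
      exact le_N X C hC (disjoint_of_subset_right hXY hd)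
    · have := le_q X
      omega
  have bt_le : ∀ (X Z : Finset V), Z.card ≤ 2 * q → Disjoint (bt G F W Z) X →
      rk G F W q X ≤ Z.card := by
    intro X Z hZ hd
    have hb := hW.isBt hZ
    exact (le_N X _ hb.big hd).trans (card_le_card hb.Nb_subset)
  refine ⟨le_q, ?_, mono, ?_, ?_, le_N, ex⟩
  · intro X
    by_cases hX : X.card < q
    · refine bt_le X X (by omega) ?_
      have hb := hW.isBt (Z := X) (by omega)
      rw [Finset.disjoint_left]
      exact fun v hv => (mem_sdiff.1 (hb.1 hv)).2
    · have := le_q X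
      omega
  · intro X v
    by_cases hX : rk G F W q X < q
    · obtain ⟨C, hC, hd, he⟩ := ex X hX
      have hN : (Nb G W C).card ≤ 2 * q := by omega
      have hCb : bt G F W (Nb G W C) = C := (hC.isBt hW hN).eq_bt
      have hZ : (insert v (Nb G W C)).card ≤ rk G F W q X + 1 := by
        rw [← he]
        exact card_insert_le _ _
      have hZ2 : (insert v (Nb G W C)).card ≤ 2 * q := by omega
      refine (bt_le (insert v X) (insert v (Nb G W C)) hZ2 ?_).trans hZ
      have hb := hW.isBt hZ2
      have hsub := bt_anti hW (subset_insert v (Nb G W C)) hZ2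
      rw [hCb] at hsub
      rw [Finset.disjoint_left]
      intro w hw hwX
      rcases mem_insert.1 hwX with rfl | hwX
      · exact (mem_sdiff.1 (hb.1 hw)).2 (mem_insert_self _ _)
      · exact (Finset.disjoint_left.1 hd) (hsub hw) hwX
    · have := le_q (insert v X)
      omega
  · intro X Y
    have m1 := mono (X ∩ Y) X inter_subset_left
    have m2 := mono (X ∩ Y) Y inter_subset_right
    have u := le_q (X ∪ Y)
    by_cases hX : rk G F W q X < q
    · by_cases hY : rk G F W q Y < q
      · obtain ⟨C1, hC1, hd1, he1⟩ := ex X hX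
        obtain ⟨C2, hC2, hd2, he2⟩ := ex Y hY
        have n1 : (Nb G W C1).card ≤ 2 * q := by omega
        have n2 : (Nb G W C2).card ≤ 2 * q := by omega
        have hb1 : bt G F W (Nb G W C1) = C1 := (hC1.isBt hW n1).eq_bt
        have hb2 : bt G F W (Nb G W C2) = C2 := (hC2.isBt hW n2).eq_bt
        have hZ : (Nb G W C1 ∪ Nb G W C2).card ≤ 2 * q := by
          have := card_union_le (Nb G W C1) (Nb G W C2)
          omega
        have hD := hW.isBt hZ
        have s1 := bt_anti hW (subset_union_left (s₁ := Nb G W C1) (s₂ := Nb G W C2)) hZ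
        have s2 := bt_anti hW (subset_union_right (s₁ := Nb G W C1) (s₂ := Nb G W C2)) hZ
        rw [hb1] at s1
        rw [hb2] at s2
        obtain ⟨x, hx⟩ := hD.2.1.1
        obtain ⟨C3, hC3, hxC3⟩ := exists_comp (G := G) (mem_inter.2 ⟨s1 hx, s2 hx⟩ : x ∈ C1 ∩ C2)
        have hDC3 : bt G F W (Nb G W C1 ∪ Nb G W C2) ⊆ C3 :=
          hC3.subset_of_mem hD.2.1 (subset_inter s1 s2) hx hxC3
        have big3 : Big G F W C3 :=
          ⟨(hC3.subset.trans inter_subset_left).trans hC1.1, hC3.conn, hD.2.2.1.mono hDC3⟩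
        have bigU : Big G F W (C1 ∪ C2) :=
          ⟨union_subset hC1.1 hC2.1, hC1.2.1.union_of_mem hC2.2.1 (s1 hx) (s2 hx),
            hC1.2.2.mono subset_union_left⟩
        have e1 : rk G F W q (X ∪ Y) ≤ (Nb G W C3).card := by
          refine le_N _ _ big3 ?_
          rw [Finset.disjoint_left]
          intro v hv hvXY
          have hv' := mem_inter.1 (hC3.subset hv)
          rcases mem_union.1 hvXY with h | h
          · exact (Finset.disjoint_left.1 hd1) hv'.1 h
          · exact (Finset.disjoint_left.1 hd2) hv'.2 h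
        have e2 : rk G F W q (X ∩ Y) ≤ (Nb G W (C1 ∪ C2)).card := by
          refine le_N _ _ bigU ?_
          rw [Finset.disjoint_left]
          intro v hv hvXY
          have hv' := mem_inter.1 hvXY
          rcases mem_union.1 hv with h | h
          · exact (Finset.disjoint_left.1 hd1) h hv'.1
          · exact (Finset.disjoint_left.1 hd2) h hv'.2
        have sU : Nb G W (C1 ∪ C2) ∪ Nb G W C3 ⊆ Nb G W C1 ∪ Nb G W C2 := by
          intro v hv
          rcases mem_union.1 hv with h | h
          · obtain ⟨hvW, hvC, y, hy, hvy⟩ := mem_Nb.1 h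
            rw [mem_union, not_or] at hvC
            rcases mem_union.1 hy with hy | hy
            · exact mem_union_left _ (mem_Nb.2 ⟨hvW, hvC.1, y, hy, hvy⟩)
            · exact mem_union_right _ (mem_Nb.2 ⟨hvW, hvC.2, y, hy, hvy⟩)
          · obtain ⟨hvW, hvC, y, hy, hvy⟩ := mem_Nb.1 h
            have hy' := mem_inter.1 (hC3.subset hy)
            by_cases h1 : v ∈ C1
            · by_cases h2 : v ∈ C2
              · exact absurd (hC3.mem_of_adj hy (mem_inter.2 ⟨h1, h2⟩) hvy.symm) hvC
              · exact mem_union_right _ (mem_Nb.2 ⟨hvW, h2, y, hy'.2, hvy⟩)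
            · exact mem_union_left _ (mem_Nb.2 ⟨hvW, h1, y, hy'.1, hvy⟩)
        have sI : Nb G W (C1 ∪ C2) ∩ Nb G W C3 ⊆ Nb G W C1 ∩ Nb G W C2 := by
          intro v hv
          obtain ⟨h, h'⟩ := mem_inter.1 hv
          obtain ⟨hvW, hvC, _⟩ := mem_Nb.1 h
          obtain ⟨_, _, y, hy, hvy⟩ := mem_Nb.1 h'
          rw [mem_union, not_or] at hvC
          have hy' := mem_inter.1 (hC3.subset hy)
          exact mem_inter.2 ⟨mem_Nb.2 ⟨hvW, hvC.1, y, hy'.1, hvy⟩,
            mem_Nb.2 ⟨hvW, hvC.2, y, hy'.2, hvy⟩⟩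
        have c1 := card_union_add_card_inter (Nb G W (C1 ∪ C2)) (Nb G W C3)
        have c2 := card_union_add_card_inter (Nb G W C1) (Nb G W C2)
        have c3 := card_le_card sU
        have c4 := card_le_card sI
        omega
      · omega
    · omega

end ErdPos
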